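import Pool.Agent.H976R3.KissFam
import Pool.Agent.H976R3.KissBand3

/-! MP_b5f63d_co: kissing configurations of `ℝⁿ` and subspaces. For a subspace of dimension at most
`α n`, the points with a part at least `s` of their squared length in the subspace are exponentially
fewer than the kissing number. `IsSphCode n (π/3) X`: the points of the finite set `X` have norm one
and pairwise inner products at most `cos (π/3) = 1/2`; `kissing n` is the largest size of such a
set. -/

open Filter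

namespace Pool.Agent.Results.MP_b5f63d_co.SpreadPoints

open Pool.Agent.H818R2 Pool.Agent.H976R3.Kiss

theorem result :
    -- (1) entropy criterion
    (∀ α s : ℝ, 0 < α → α < s → s < (1 + α) / 2 →
      (s / α) ^ α * ((1 - s) / (1 - α)) ^ (1 - α) < 2 / 3 → Thin α s) ∧
    -- (2) criterion for larger `s`
    (∀ α s : ℝ, 0 < α → α < 1 → 1 / 2 < s → s < 1 → (2 * s / (2 * s - 1)) ^ α < 4 / 3 →
      Thin α s) ∧
    -- (3) examples
    (Thin (1 / 100) (37 / 100) ∧ Thin (1 / 10) (53 / 100) ∧ Thin (1 / 5) (2 / 3) ∧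
      Thin (2 / 5) (49 / 50)) ∧
    -- (4) small dimension: threshold `1/3`, sparse points, second moments
    ∀ η : ℝ, 0 < η → ∃ δ ε : ℝ, 0 < δ ∧ 0 < ε ∧ ∀ᶠ n : ℕ in atTop,
      ∀ X, IsSphCode n (Real.pi / 3) X →
        FewNear (1 / 3 + η) (δ * n) (2 ^ (ε * n)) (2 ^ (-ε * n) * kissing n) X ∧
        FewSparse (1 / 3 + η) (δ * n) (2 ^ (-ε * n) * kissing n) X ∧
        SmallMoment (1 / 3 + η) (δ * n) (2 ^ (-ε * n) * kissing n) X := by
  refine ⟨fun _ _ h1 h2 h3 h4 => thin_entropy h1 h2 h3 h4,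
    fun _ _ h1 h2 h3 h4 h5 => thin_large h1 h2 h3 h4 h5, ⟨thin_a, thin_b, thin_c, thin_d⟩, ?_⟩
  intro η hη
  obtain ⟨δ, ε, hδ, hε, H⟩ := fam_asym hη
  refine ⟨δ, ε, hδ, hε, ?_⟩
  filter_upwards [H] with n hn X hX
  obtain ⟨h1, h2, h3⟩ := hn X hX
  refine ⟨h1, fun m b => ?_, h3⟩
  obtain rfl : m = n := by
    have := Module.finrank_eq_card_basis b.toBasis
    simpa using this.symm
  exact h2 b

end Pool.Agent.Results.MP_b5f63d_co.SpreadPoints
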